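import Pool.Agent.HU26.Bound

/-!
# Second coefficients of univalent harmonic mappings of the disc

`result`: for a sense-preserving univalent harmonic map `f = h + conj g` of the unit disc with
`h 0 = g 0 = 0`, `h' 0 = 1` one has, with `b = g' 0`,
`|h''(0)/2| ≤ (29/2 + |b|) / 2` and `|g''(0)/2| ≤ (1 + 29/2 |b|) / 2`.

Method. The harmonic pre-Schwarzian derivative `P = (h'' - conj ω g'')/(h'(1-|ω|²))` satisfies
`|(1-|z|²) P(z) - 2 conj z| ≤ 29/2`.  If not, renormalise `f` (affinely and by a disc automorphism)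
at a point where the left hand side (for `f(r z)`) is maximal.  The maximality forces the analytic
part `H` of the renormalised and rescaled map to satisfy `H'(z) ≈ exp (29 z / 2)` for
`|z| ≤ 4/25`.  On the other hand the area principle for `E = (f/z)^(-1/2)` on the unit circle is
propagated inwards to the circle `|z| = 4/25` by a quadratic Lyapunov functional of the Fourier
modes of `E`, and there it contradicts the exponential model.
-/

set_option autoImplicit false

open Complex

namespace Pool.Agent.Results.MP_a0ec2a_an.SecondCoeff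

/-- The second coefficients `a₂ = h''(0)/2` and `a₋₂ = g''(0)/2` (up to conjugation) of
`f = h + conj g ∈ S_H`. -/
theorem result :
    ∀ h g : ℂ → ℂ,
      DifferentiableOn ℂ h (Metric.ball (0 : ℂ) 1) →
      DifferentiableOn ℂ g (Metric.ball (0 : ℂ) 1) →
      h 0 = 0 → g 0 = 0 → deriv h 0 = 1 →
      (∀ z ∈ Metric.ball (0 : ℂ) 1, ‖deriv g z‖ < ‖deriv h z‖) →
      Set.InjOn (fun z => h z + (starRingEnd ℂ) (g z)) (Metric.ball (0 : ℂ) 1) →
        ‖iteratedDeriv 2 h 0‖ / 2 ≤ (29 / 2 + ‖deriv g 0‖) / 2 ∧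
        ‖iteratedDeriv 2 g 0‖ / 2 ≤ (1 + 29 / 2 * ‖deriv g 0‖) / 2 := by
  intro h g hh hg _ _ h1 hlt hinj
  have H : Pool.Agent.HU85.HarmU h g := ⟨hh, hg, hlt, hinj⟩
  have h2 := Pool.Agent.HU26.second H h1
  have e : ∀ f : ℂ → ℂ, iteratedDeriv 2 f 0 = deriv (deriv f) 0 := by
    intro f
    rw [iteratedDeriv_succ, iteratedDeriv_one]
  rw [e, e]
  constructor
  · linarith [h2.1]
  · linarith [h2.2]

end Pool.Agent.Results.MP_a0ec2a_an.SecondCoeff
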