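import Mathlib
import Pool.Agent.CSH.Final

set_option autoImplicit false

/-!
# MP_a0ec2a_an: the sharp second coefficient theorem in `S_H` (the case `n = 2` of Q1)

For every `f = h + conj g` in `S_H`: `|a_2| <= 3` and `|a_{-2}| <= 3`; more precisely
`|a_2 + ε b_2| <= 3 |1 + ε b_1|` for every unimodular `ε` (`h = z + a_2 z^2 + ...`,
`g = b_1 z + b_2 z^2 + ...`).

Idea of the proof.  Fix the coordinate `Im L`, `L = h - g` (after a rotation), of a univalent
harmonic polynomial `f` near the closed disc.  By an exact quadrature over finitely many regular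
levels one finds `Lhat` with the same Taylor coefficients, whose imaginary part is a step function
on the circle and whose derivative has all its zeros on the circle.  The planarity of `f` gives a
non-crossing matching of the jumps; a diagonally dominant linear system gives `R` with `Im R > 0`
such that the maximal surface `X' = Lhat' (1, R, R^2)` in `R^{2,1}` closes up and is achronal:
`K = (Im dF)^2 - Im dG Im dL > 0`.  A two-point minimum principle for `log K` yields
`K(x,y) >= r(x) r(y) tanh^2(d/2) cosh^2(d_R/2)`, whose diagonal limit together with an extremal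
argument gives the bound of the second coefficient.
-/

namespace Pool.Agent.Results.MP_a0ec2a_an.SharpSecond

/-- **Sharp second coefficient theorem.** -/
theorem result :
    ∀ h g : ℂ → ℂ,
      DifferentiableOn ℂ h (Metric.ball (0 : ℂ) 1) →
      DifferentiableOn ℂ g (Metric.ball (0 : ℂ) 1) →
      h 0 = 0 → g 0 = 0 → deriv h 0 = 1 →
      (∀ z ∈ Metric.ball (0 : ℂ) 1, ‖deriv g z‖ < ‖deriv h z‖) →
      Set.InjOn (fun z => h z + (starRingEnd ℂ) (g z)) (Metric.ball (0 : ℂ) 1) →
        ‖iteratedDeriv 2 h 0‖ / 2 ≤ 3 ∧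
        ‖iteratedDeriv 2 g 0‖ / 2 ≤ 3 ∧
        ∀ ε : ℂ, ‖ε‖ = 1 →
          ‖iteratedDeriv 2 h 0 + ε * iteratedDeriv 2 g 0‖ / 2 ≤ 3 * ‖1 + ε * deriv g 0‖ := by
  intro h g hh hg _ _ h1 hlt hinj
  have h2 := Pool.CSH.second_coeff h g hh hg h1 hlt hinj
  have e : ∀ f : ℂ → ℂ, iteratedDeriv 2 f 0 = deriv (deriv f) 0 := by
    intro f
    rw [iteratedDeriv_succ, iteratedDeriv_one]
  have e2 : ∀ w : ℂ, ‖w / 2‖ = ‖w‖ / 2 := by
    intro w
    rw [norm_div, RCLike.norm_ofNat]
  rw [e2, e2] at h2
  refine ⟨?_, ?_, ?_⟩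
  · rw [e]; exact h2.1
  · rw [e]; exact h2.2.1
  · intro ε hε
    rw [e, e, ← e2]
    exact h2.2.2 ε hε

end Pool.Agent.Results.MP_a0ec2a_an.SharpSecond
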