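import Pool.Agent.HU26.Norm

set_option autoImplicit false

namespace Pool.Agent.Results.MP_a0ec2a_an.VanishingDilatation

open Pool.Agent.HU26 in
/-- The case `n = 2` of the coefficient bounds for all maps `f = h + conj g` of the class whose
dilatation `g'/h'` is constant up to order `3` at the origin, that is, whose coefficients satisfy
`b_k = b_1 a_k` for `k = 2, 3, 4`. -/
theorem result :
    ∀ h g : ℂ → ℂ,
      DifferentiableOn ℂ h (Metric.ball (0 : ℂ) 1) →
      DifferentiableOn ℂ g (Metric.ball (0 : ℂ) 1) →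
      h 0 = 0 → g 0 = 0 → deriv h 0 = 1 →
      (∀ z ∈ Metric.ball (0 : ℂ) 1, ‖deriv g z‖ < ‖deriv h z‖) →
      Set.InjOn (fun z => h z + (starRingEnd ℂ) (g z)) (Metric.ball (0 : ℂ) 1) →
      (∀ k : ℕ, 2 ≤ k → k ≤ 4 → iteratedDeriv k g 0 = deriv g 0 * iteratedDeriv k h 0) →
        ‖iteratedDeriv 2 h 0‖ / ((2 : ℕ).factorial : ℝ) ≤ 72 / 25 ∧
        ‖iteratedDeriv 2 g 0‖ / ((2 : ℕ).factorial : ℝ) ≤ 72 / 25 := by
  intro h g dh dg h0 g0 h1 sense inj hc
  have S : SH h g := ⟨dh, dg, h0, g0, h1, sense, inj⟩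
  have h2 := S.bound (m := 4) (by norm_num) hc C4
  rw [Nat.factorial_two]
  exact_mod_cast h2

end Pool.Agent.Results.MP_a0ec2a_an.VanishingDilatation
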